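import Pool.Agent.W662.KKS.Fin2
import Pool.Agent.W662.KKS.Kk
import Pool.Agent.W393.KKS.Ind

set_option autoImplicit false

open scoped InnerProductSpace ENNReal
open Pool.Agent.Helper278 Pool.Agent.W663.KK Pool.Agent.W662.KKS

namespace Pool.Agent.Results.MP_323167_an.IndexStability

/-- **Indices of subfactors agree for Kadison–Kastler close II₁ factors, with a universal
constant.** There is `ε > 0` such that for all II₁ factors `M, N` on the same Hilbert space at
Kadison–Kastler distance less than `ε`, if `M` has a subfactor of index `d` (for example `d = 2`),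
then so has `N`. -/
theorem result :
    ∃ ε : ℝ, 0 < ε ∧ ∀ (H : Type) [NormedAddCommGroup H] [InnerProductSpace ℂ H]
      [CompleteSpace H] (M N : VonNeumannAlgebra H) (τ : Elt M → ℂ) (σ : Elt N → ℂ),
      IsIIOneFactor M τ → IsIIOneFactor N σ → kkDist M N < ε →
        ∀ d : ℝ≥0∞, HasSubfactorOfIndex M τ d → HasSubfactorOfIndex N σ d := by
  obtain ⟨δ, hδ, h⟩ := gmain
  refine ⟨δ, hδ, ?_⟩
  intro H _ _ _ M N τ σ hM hN hd d hd2
  have hd' : kkDist N M < δ := by rw [← kk_comm]; exact hd
  exact Pool.Agent.W393.KKS.ind H M N τ σ hM hN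
    (h H M N τ σ hM hN (near_of_kk hd) (near_of_kk hd')) d hd2

end Pool.Agent.Results.MP_323167_an.IndexStability
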